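import Pool.Agent.N73.PF.Nonsq

/-!
# Facts on `AdjoinRoot h` over a finite field (project PF of helper783)

By helper73.
-/

set_option autoImplicit false

open Polynomial

namespace Pool.Agent.N73.PF

theorem adj_facts {κ : Type} [Field κ] [Finite κ] {g : ℕ} (hg : 1 ≤ g) (h2 : (2 : κ) ≠ 0)
    (h1 : IsSquare (-1 : κ)) {h : κ[X]} (hirr : Irreducible h) (hmon : h.Monic)
    (hdeg : h.natDegree = 2 * g) :
    (∀ a : AdjoinRoot h, a * AdjoinRoot.mk h (derivative h) = 0 → a = 0) ∧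
      ∀ a b : AdjoinRoot h, a ^ 2 * AdjoinRoot.mk h (derivative h) = b ^ 2 → a = 0 := by
  have i1 : Fact (Irreducible h) := ⟨hirr⟩
  have i2 : Fintype κ := Fintype.ofFinite κ
  have hd : Module.finrank κ (AdjoinRoot h) = 2 * g := by
    have h3 : Module.finrank κ (κ[X] ⧸ Ideal.span {h}) = h.natDegree :=
      finrank_quotient_span_eq_natDegree
    rw [hdeg] at h3
    exact h3
  have f2 : Module.Finite κ (AdjoinRoot h) :=
    Module.finite_of_finrank_pos (by rw [hd]; omega)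
  have f3 : Finite (AdjoinRoot h) := Module.finite_of_finite κ
  have key := nonsq (κ := κ) (L := AdjoinRoot h) (m := 2 * g - 1) (by rw [hd]; omega)
    ⟨g - 1, by omega⟩ h2 h1 hmon (by rw [hdeg]; omega) (θ := AdjoinRoot.root h)
    (by rw [AdjoinRoot.aeval_eq, AdjoinRoot.mk_self])
    (fun ψ ψ' hh => AdjoinRoot.algHom_ext hh)
  rw [AdjoinRoot.aeval_eq] at key
  obtain ⟨k1, k2⟩ := key
  refine ⟨fun a ha => (mul_eq_zero.1 ha).resolve_right k1, fun a b hab => ?_⟩
  by_contra hne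
  apply k2
  refine ⟨b / a, ?_⟩
  field_simp
  rw [← hab]
  ring

/-- `-1` is a square, `2` is not zero and the number of elements is a power of `q`. -/
theorem kappa_facts {κ : Type} [Field κ] [Finite κ] {q : ℕ} (hq : q.Prime) (h8 : q % 8 = 1)
    (h0 : (q : κ) = 0) : (2 : κ) ≠ 0 ∧ IsSquare (-1 : κ) ∧ ∃ e : ℕ, Nat.card κ = q ^ e := by
  have i0 : Fact q.Prime := ⟨hq⟩
  have i1 : CharP κ q := (CharP.charP_iff_prime_eq_zero hq).2 h0
  have i2 : Fintype κ := Fintype.ofFinite κ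
  refine ⟨?_, ?_, ?_⟩
  · intro h3
    have h4 : ((2 : ℕ) : κ) = 0 := by exact_mod_cast h3
    rw [CharP.cast_eq_zero_iff κ q] at h4
    have h5 := Nat.le_of_dvd (by norm_num) h4
    have h6 := hq.two_le
    have h7 : q = 2 := le_antisymm h5 h6
    rw [h7] at h8
    norm_num at h8
  · have h3 : IsSquare (-1 : ZMod q) := ZMod.exists_sq_eq_neg_one_iff.2 (by omega)
    have h4 := h3.map (ZMod.castHom (dvd_refl q) κ)
    rwa [map_neg, map_one] at h4
  · obtain ⟨n, -, hn⟩ := FiniteField.card κ q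
    exact ⟨n, by rw [Nat.card_eq_fintype_card, hn]⟩

end Pool.Agent.N73.PF
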