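import Pool.Agent.N783.PF.Lat
import Pool.Agent.N765.PJ.Exq

/-!
# The primes over `𝔮` (project PF of helper783)

By helper73, a port to `𝓞 F` of helper340's and helper765's files for the projects PQ and PJ. The ring of
integers of `L` is a quotient of `(𝓞 F)[X]`; the primes over `𝔭` are the kernels of the maps to
`AdjoinRoot m`, `m` an irreducible factor of `f` modulo `𝔭`.
-/

set_option autoImplicit false
set_option linter.all false

open Polynomial IsDedekindDomain WithZero NumberField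
open scoped Classical

namespace Pool.Agent.N73.PF

open Pool.Agent.N783.PF
open Pool.Agent.N874.PP (Ev Sq1 U0)

/-- evaluation at `t` -/
noncomputable def ev {R O : Type} [CommRing R] [CommRing O] [Algebra R O] (t : O) : R[X] →+* O :=
  eval₂RingHom (algebraMap R O) t

section poly

variable {F : Type} [Field F] [NumberField F] {𝔭 : Ideal (𝓞 F)}

theorem map_eq_of_cg {f f' : (𝓞 F)[X]} (h : Cg 𝔭 f f') : rd 𝔭 f = rd 𝔭 f' := by
  ext j
  rw [coeff_map, coeff_map]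
  exact Ideal.Quotient.eq.2 (h j)

theorem coeff_of_rd_eq_zero {p : (𝓞 F)[X]} (h : rd 𝔭 p = 0) (i : ℕ) : p.coeff i ∈ 𝔭 := by
  have h1 := congrArg (fun p => coeff p i) h
  simp only [coeff_map, coeff_zero] at h1
  exact Ideal.Quotient.eq_zero_iff_mem.1 h1

theorem rd_surj (𝔭 : Ideal (𝓞 F)) : Function.Surjective (rd 𝔭) :=
  Polynomial.map_surjective _ Ideal.Quotient.mk_surjective

end poly

section main

variable {F L : Type} [Field F] [NumberField F] [Field L] [NumberField L] [Algebra F L]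
  {g : ℕ} {f : (𝓞 F)[X]} {θ : L}

theorem algMap_coe (a : 𝓞 F) :
    algebraMap (𝓞 L) L (algebraMap (𝓞 F) (𝓞 L) a) = algebraMap F L (a : F) := rfl

theorem ev_L {t : 𝓞 L} (ht : algebraMap (𝓞 L) L t = θ) (p : (𝓞 F)[X]) :
    algebraMap (𝓞 L) L (ev t p) = aeval θ (fF p) := by
  unfold ev
  rw [coe_eval₂RingHom, hom_eval₂, ht, aeval_def, eval₂_map]
  congr 1

theorem ev_f (h : IsGen g f θ) {t : 𝓞 L} (ht : algebraMap (𝓞 L) L t = θ) : ev t f = 0 := by
  apply IsFractionRing.injective (𝓞 L) L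
  rw [ev_L ht, h.root, map_zero]

/-- a polynomial of small degree with value zero -/
theorem small_zero (h : IsGen g f θ) {r : (𝓞 F)[X]}
    (hr : r.degree < ((2 * g + 1 : ℕ) : WithBot ℕ)) (h0 : aeval θ (fF r) = 0) : r = 0 := by
  have hli := Fintype.linearIndependent_iff.1 h.basis.linearIndependent
  have h1 : ∑ i : Fin (2 * g + 1), ((r.coeff i : 𝓞 F) : F) • h.basis i = 0 := by
    rw [← h0, aeval_def, eval₂_map, eval₂_eq_sum_range' _ (n := 2 * g + 1),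
      ← Fin.sum_univ_eq_sum_range
        (fun i => ((algebraMap F L).comp (algebraMap (𝓞 F) F)) (r.coeff i) * θ ^ i)]
    · refine Finset.sum_congr rfl fun i _ => ?_
      rw [h.basis_apply, Algebra.smul_def]
      rfl
    · by_cases hr0 : r = 0
      · rw [hr0]; simp
      · exact (natDegree_lt_iff_degree_lt hr0).2 hr
  have h2 := hli _ h1
  ext1 i
  rw [coeff_zero]
  by_cases hi : i < 2 * g + 1
  · have h3 := h2 ⟨i, hi⟩
    exact_mod_cast h3
  · exact coeff_eq_zero_of_degree_lt (hr.trans_le (by exact_mod_cast (not_lt.1 hi)))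

theorem deg_f (h : IsGen g f θ) : f.degree = ((2 * g + 1 : ℕ) : WithBot ℕ) := by
  rw [degree_eq_natDegree h.mon.ne_zero, h.deg]

theorem ev_ker (h : IsGen g f θ) {t : 𝓞 L} (ht : algebraMap (𝓞 L) L t = θ) {p : (𝓞 F)[X]}
    (hp : ev t p = 0) : f ∣ p := by
  rw [← modByMonic_eq_zero_iff_dvd h.mon]
  refine small_zero h ?_ ?_
  · rw [← deg_f h]
    exact degree_modByMonic_lt _ h.mon
  · rw [← ev_L ht]
    have h1 := modByMonic_add_div p f
    have h2 := congrArg (ev t) h1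
    rw [map_add, map_mul, ev_f h ht, zero_mul, add_zero, hp] at h2
    rw [h2, map_zero]

theorem ev_C (t : 𝓞 L) (c : 𝓞 F) : ev t (C c) = algebraMap (𝓞 F) (𝓞 L) c := by
  simp [ev]

theorem ev_X (t : 𝓞 L) : ev t (X : (𝓞 F)[X]) = t := by simp [ev]

/-- the polynomial with given coordinates -/
theorem crd_poly {t : 𝓞 L} (ht : algebraMap (𝓞 L) L t = θ) {v : Fin (2 * g + 1) → 𝓞 F} {z : 𝓞 L}
    (hz : algebraMap (𝓞 L) L z = ∑ i, algebraMap F L (v i : F) * θ ^ (i : ℕ)) :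
    ∃ p : (𝓞 F)[X], ev t p = z := by
  refine ⟨∑ i : Fin (2 * g + 1), C (v i) * X ^ (i : ℕ), ?_⟩
  apply IsFractionRing.injective (𝓞 L) L
  rw [hz, map_sum, map_sum]
  refine Finset.sum_congr rfl fun i _ => ?_
  rw [map_mul, ev_C, map_pow, ev_X, map_mul, map_pow, ht, algMap_coe]

/-- the contraction of `𝔓` -/
theorem ov_iff {𝔭 : Ideal (𝓞 F)} (hm : 𝔭.IsMaximal) {𝔓 : HeightOneSpectrum (𝓞 L)}
    (hov : Ov 𝔭 𝔓) (c : 𝓞 F) : algebraMap (𝓞 F) (𝓞 L) c ∈ 𝔓.asIdeal ↔ c ∈ 𝔭 := by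
  have h1 : 𝔭 = 𝔓.asIdeal.comap (algebraMap (𝓞 F) (𝓞 L)) := by
    refine hm.eq_of_le ?_ fun a ha => hov a ha
    have := 𝔓.isPrime
    exact (Ideal.comap_isPrime (algebraMap (𝓞 F) (𝓞 L)) 𝔓.asIdeal).ne_top
  constructor
  · intro h2
    rw [h1]
    exact h2
  · exact hov c

theorem ev_mem_of_coeff {𝔭 : Ideal (𝓞 F)} {t : 𝓞 L} {I : Ideal (𝓞 L)}
    (hI : ∀ a ∈ 𝔭, algebraMap (𝓞 F) (𝓞 L) a ∈ I) {p : (𝓞 F)[X]} (hp : ∀ i, p.coeff i ∈ 𝔭) :
    ev t p ∈ I := by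
  unfold ev
  rw [coe_eval₂RingHom, eval₂_eq_sum_range]
  exact I.sum_mem fun i _ => I.mul_mem_right _ (hI _ (hp i))

/-- membership by reduction modulo `𝔭` -/
theorem mem_of_dvd {𝔭 : Ideal (𝓞 F)} {t : 𝓞 L} {I : Ideal (𝓞 L)}
    (hI : ∀ a ∈ 𝔭, algebraMap (𝓞 F) (𝓞 L) a ∈ I) {m p : (𝓞 F)[X]} (hm : ev t m ∈ I)
    (hd : rd 𝔭 m ∣ rd 𝔭 p) : ev t p ∈ I := by
  obtain ⟨c, hc⟩ := hd
  obtain ⟨c, rfl⟩ := rd_surj 𝔭 c
  have h1 : rd 𝔭 (p - m * c) = 0 := by
    rw [rd, Polynomial.map_sub, Polynomial.map_mul]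
    rw [rd, rd, rd] at hc
    rw [hc, sub_self]
  have h2 : ev t (p - m * c) ∈ I := ev_mem_of_coeff hI (coeff_of_rd_eq_zero h1)
  have h3 : ev t p = ev t (p - m * c) + ev t m * ev t c := by
    rw [← map_mul, ← map_add]
    congr 1
    ring
  rw [h3]
  exact I.add_mem h2 (I.mul_mem_right _ hm)

theorem theta_ex (h : IsGen g f θ) : ∃ t : 𝓞 L, algebraMap (𝓞 L) L t = θ := by
  have h1 : IsIntegral (𝓞 F) θ := by
    refine ⟨f, h.mon, ?_⟩
    have h2 := h.root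
    rw [aeval_def, eval₂_map] at h2
    exact h2
  have h2 : IsIntegral ℤ θ := isIntegral_trans (R := ℤ) (A := 𝓞 F) θ h1
  exact ⟨⟨θ, h2⟩, rfl⟩

/-- integers as values of polynomials -/
theorem ev_surj (hI : S_INT) (h : IsGen g f θ) (hsq : SqF g f) {t : 𝓞 L}
    (ht : algebraMap (𝓞 L) L t = θ) : Function.Surjective (ev (R := 𝓞 F) t) := fun z => by
  obtain ⟨v, hv⟩ := (hI g F L f θ h hsq _).1 z.isIntegral_coe
  exact crd_poly ht hv

/-- the map to `AdjoinRoot m` for a factor `m` of `f` modulo `𝔭` -/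
theorem ex_psi (hI : S_INT) (h : IsGen g f θ) (hsq : SqF g f) {t : 𝓞 L}
    (ht : algebraMap (𝓞 L) L t = θ) (𝔭 : Ideal (𝓞 F)) (m : (𝓞 F ⧸ 𝔭)[X])
    (hm : m ∣ rd 𝔭 f) : ∃ ψ : 𝓞 L →+* AdjoinRoot m,
      ∀ p : (𝓞 F)[X], ψ (ev t p) = AdjoinRoot.mk m (rd 𝔭 p) := by
  have hk : RingHom.ker (ev (R := 𝓞 F) t) ≤
      RingHom.ker ((AdjoinRoot.mk m).comp (mapRingHom (Ideal.Quotient.mk 𝔭))) := by
    intro p hp
    rw [RingHom.mem_ker] at hp ⊢
    obtain ⟨c, rfl⟩ := ev_ker h ht hp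
    simp only [RingHom.comp_apply, coe_mapRingHom, Polynomial.map_mul, map_mul]
    rw [AdjoinRoot.mk_eq_zero.2 hm, zero_mul]
  refine ⟨(ev t).liftOfSurjective (ev_surj hI h hsq ht) ⟨_, hk⟩, fun p => ?_⟩
  rw [RingHom.liftOfRightInverse_comp_apply]
  rfl

end main

end Pool.Agent.N73.PF
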