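import Pool.Agent.N73.PF.Base
import Pool.Agent.N73.PF.Adj

/-!
# The two primes over `𝔮 q` (project PF of helper783)

By helper73, a port to `𝓞 F` of helper340's and helper765's files for the projects PQ and PJ.
-/

set_option autoImplicit false
set_option linter.all false

open Polynomial IsDedekindDomain WithZero NumberField
open scoped Classical

namespace Pool.Agent.N73.PF

open Pool.Agent.N783.PF
open Pool.Agent.N874.PP (Ev Sq1 U0)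
open Pool.Agent.N765.PJ (sq_even val_one)

section red

variable {F : Type} [Field F] [NumberField F] {𝔭 : Ideal (𝓞 F)}

theorem rd_X (𝔭 : Ideal (𝓞 F)) : rd 𝔭 (X : (𝓞 F)[X]) = X := Polynomial.map_X _

theorem rd_C (𝔭 : Ideal (𝓞 F)) (c : 𝓞 F) : rd 𝔭 (C c) = C (Ideal.Quotient.mk 𝔭 c) :=
  Polynomial.map_C _

theorem rd_mul (𝔭 : Ideal (𝓞 F)) (a b : (𝓞 F)[X]) : rd 𝔭 (a * b) = rd 𝔭 a * rd 𝔭 b :=
  Polynomial.map_mul _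

theorem field_adj (hmax : 𝔭.IsMaximal) {m : (𝓞 F ⧸ 𝔭)[X]} (hm : Irreducible m) :
    IsField (AdjoinRoot m) := by
  let i1 : Field (𝓞 F ⧸ 𝔭) := Ideal.Quotient.field _
  have i2 : Fact (Irreducible m) := ⟨hm⟩
  exact (inferInstance : Field (AdjoinRoot m)).toIsField

theorem fin_quot (h0 : 𝔭 ≠ ⊥) : Finite (𝓞 F ⧸ 𝔭) := 𝔭.finiteQuotientOfFreeOfNeBot h0

theorem card_adj (hmax : 𝔭.IsMaximal) (h0 : 𝔭 ≠ ⊥) {m : (𝓞 F ⧸ 𝔭)[X]} (hm : Irreducible m) :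
    Nat.card (AdjoinRoot m) = Nat.card (𝓞 F ⧸ 𝔭) ^ m.natDegree ∧ Finite (AdjoinRoot m) := by
  let i1 : Field (𝓞 F ⧸ 𝔭) := Ideal.Quotient.field _
  have f3 : Finite (𝓞 F ⧸ 𝔭) := fin_quot h0
  have hd2 : Module.finrank (𝓞 F ⧸ 𝔭) ((𝓞 F ⧸ 𝔭)[X] ⧸ Ideal.span {m}) = m.natDegree :=
    finrank_quotient_span_eq_natDegree
  have f2 : Module.Finite (𝓞 F ⧸ 𝔭) ((𝓞 F ⧸ 𝔭)[X] ⧸ Ideal.span {m}) :=
    Module.finite_of_finrank_pos (by rw [hd2]; exact hm.natDegree_pos)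
  refine ⟨?_, ?_⟩
  · have := Module.natCard_eq_pow_finrank (K := 𝓞 F ⧸ 𝔭) (V := (𝓞 F ⧸ 𝔭)[X] ⧸ Ideal.span {m})
    rw [hd2] at this
    exact this
  · exact Module.finite_of_finite (𝓞 F ⧸ 𝔭) (M := (𝓞 F ⧸ 𝔭)[X] ⧸ Ideal.span {m})

theorem irrX (hmax : 𝔭.IsMaximal) : Irreducible (rd 𝔭 (X : (𝓞 F)[X])) := by
  let i1 : Field (𝓞 F ⧸ 𝔭) := Ideal.Quotient.field _
  rw [rd, Polynomial.map_X]
  exact irreducible_X

theorem hbar (hmax : 𝔭.IsMaximal) {g : ℕ} (hg : 1 ≤ g) {h : (𝓞 F)[X]} (hm : h.Monic)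
    (hd : h.natDegree = 2 * g) : (rd 𝔭 h).natDegree = 2 * g ∧ ¬ rd 𝔭 h ∣ X := by
  let i1 : Field (𝓞 F ⧸ 𝔭) := Ideal.Quotient.field _
  have h9 : (rd 𝔭 h).natDegree = 2 * g := by
    rw [rd, hm.natDegree_map, hd]
  refine ⟨h9, fun hd => ?_⟩
  have h10 : (rd 𝔭 h).natDegree ≤ (X : (𝓞 F ⧸ 𝔭)[X]).natDegree :=
    natDegree_le_of_dvd hd X_ne_zero
  rw [h9, natDegree_X] at h10
  omega

end red

section main

variable {F L : Type} [Field F] [NumberField F] [Field L] [NumberField L] [Algebra F L]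
  {g : ℕ} {f : (𝓞 F)[X]} {θ : L}

theorem psi_surj {t : 𝓞 L} {𝔭 : Ideal (𝓞 F)} {m : (𝓞 F ⧸ 𝔭)[X]} {ψ : 𝓞 L →+* AdjoinRoot m}
    (hψ : ∀ p : (𝓞 F)[X], ψ (ev t p) = AdjoinRoot.mk m (rd 𝔭 p)) : Function.Surjective ψ := by
  intro a
  obtain ⟨p, rfl⟩ := AdjoinRoot.mk_surjective a
  obtain ⟨p, rfl⟩ := rd_surj 𝔭 p
  exact ⟨_, hψ p⟩

theorem ker_max {t : 𝓞 L} {𝔭 : Ideal (𝓞 F)} (hmax : 𝔭.IsMaximal) {m : (𝓞 F ⧸ 𝔭)[X]}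
    (hm : Irreducible m) {ψ : 𝓞 L →+* AdjoinRoot m}
    (hψ : ∀ p : (𝓞 F)[X], ψ (ev t p) = AdjoinRoot.mk m (rd 𝔭 p)) : (RingHom.ker ψ).IsMaximal := by
  apply Ideal.Quotient.maximal_of_isField
  exact MulEquiv.isField (field_adj hmax hm)
    (RingHom.quotientKerEquivOfSurjective (psi_surj hψ)).toMulEquiv

/-- a prime over `𝔭` which contains `m(t)` -/
theorem eq_ker (hI : S_INT) (h : IsGen g f θ) (hsq : SqF g f) {t : 𝓞 L}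
    (ht : algebraMap (𝓞 L) L t = θ) {𝔭 : Ideal (𝓞 F)} (hmax : 𝔭.IsMaximal) {m : (𝓞 F)[X]}
    (hm : Irreducible (rd 𝔭 m)) {ψ : 𝓞 L →+* AdjoinRoot (rd 𝔭 m)}
    (hψ : ∀ p : (𝓞 F)[X], ψ (ev t p) = AdjoinRoot.mk (rd 𝔭 m) (rd 𝔭 p))
    {𝔓 : HeightOneSpectrum (𝓞 L)} (hov : Ov 𝔭 𝔓) (hmem : ev t m ∈ 𝔓.asIdeal) :
    𝔓.asIdeal = RingHom.ker ψ := by
  symm
  refine (ker_max hmax hm hψ).eq_of_le 𝔓.isPrime.ne_top fun z hz => ?_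
  obtain ⟨p, rfl⟩ := ev_surj hI h hsq ht z
  rw [RingHom.mem_ker, hψ, AdjoinRoot.mk_eq_zero] at hz
  exact mem_of_dvd hov hmem hz

/-- a prime over `𝔭` -/
theorem mem_or {t : 𝓞 L} (h : IsGen g f θ) (ht : algebraMap (𝓞 L) L t = θ) {𝔭 : Ideal (𝓞 F)}
    {hq' : (𝓞 F)[X]} (hcg : Cg 𝔭 f (X * hq')) {𝔓 : HeightOneSpectrum (𝓞 L)} (hov : Ov 𝔭 𝔓) :
    t ∈ 𝔓.asIdeal ∨ ev t hq' ∈ 𝔓.asIdeal := by
  have h1 : ev t (X * hq') ∈ 𝔓.asIdeal := by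
    refine mem_of_dvd (m := f) hov ?_ ?_
    · rw [ev_f h ht]
      exact 𝔓.asIdeal.zero_mem
    · rw [map_eq_of_cg hcg]
  rw [map_mul, ev_X] at h1
  exact 𝔓.isPrime.mem_or_mem h1

/-- If `q` is in `𝔓 ^ 2` but not in `𝔭 ^ 2` then `𝔭` is contained in `𝔓 ^ 2`. -/
theorem sq_mem {𝔭 : Ideal (𝓞 F)} (hmax : 𝔭.IsMaximal) {q : 𝓞 F} (hq : q ∈ 𝔭) (hq2 : q ∉ 𝔭 ^ 2)
    {𝔓 : HeightOneSpectrum (𝓞 L)} (hov : Ov 𝔭 𝔓)
    (hmem : algebraMap (𝓞 F) (𝓞 L) q ∈ 𝔓.asIdeal ^ 2) (a : 𝓞 F) (ha : a ∈ 𝔭) :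
    algebraMap (𝓞 F) (𝓞 L) a ∈ 𝔓.asIdeal ^ 2 := by
  obtain ⟨𝔟, h𝔟⟩ : 𝔭 ∣ Ideal.span {q} :=
    Ideal.dvd_iff_le.2 ((Ideal.span_singleton_le_iff_mem _).2 hq)
  obtain ⟨b, hb, hbn⟩ : ∃ b ∈ 𝔟, b ∉ 𝔭 := by
    by_contra hn
    push Not at hn
    apply hq2
    rw [sq]
    have h1 : 𝔭 * 𝔟 ≤ 𝔭 * 𝔭 := Ideal.mul_mono_right fun b hb => hn b hb
    apply h1
    rw [← h𝔟]
    exact Ideal.mem_span_singleton_self q
  have h1 : a * b ∈ Ideal.span {q} := by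
    rw [h𝔟]
    exact Ideal.mul_mem_mul ha hb
  obtain ⟨c, hc⟩ := Ideal.mem_span_singleton'.1 h1
  have h2 : algebraMap (𝓞 F) (𝓞 L) b * algebraMap (𝓞 F) (𝓞 L) a ∈ 𝔓.asIdeal ^ 2 := by
    rw [← map_mul, mul_comm b a, ← hc, map_mul]
    exact Ideal.mul_mem_left _ _ hmem
  have i1 := 𝔓.isPrime
  rcases Ideal.IsPrime.mul_mem_pow 𝔓.asIdeal h2 with h3 | h3
  · exact absurd ((ov_iff hmax hov b).1 h3) hbn
  · exact h3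

end main

/-- **EXQ.** -/
theorem exq (hI : S_INT) : S_EXQ := by
  intro g W F L _ _ _ _ _ f θ S 𝔮 h P hg hG hsq hS q hqS hcg
  obtain ⟨hq, -, -, -, hur, hprime, hmem𝔮, hm, hdeg, hirr, -⟩ := hS q hqS
  obtain ⟨𝔭, h𝔭⟩ : ∃ 𝔭 : Ideal (𝓞 F), 𝔭 = 𝔮 q := ⟨_, rfl⟩
  rw [← h𝔭] at hprime hmem𝔮 hirr hcg ⊢
  have hq0 : (q : 𝓞 F) ≠ 0 := by exact_mod_cast hq.ne_zero
  have hne : 𝔭 ≠ ⊥ := fun h0 => hq0 (by rwa [h0, Ideal.mem_bot] at hmem𝔮)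
  have hmax : 𝔭.IsMaximal := hprime.isMaximal hne
  have hq2 : (q : 𝓞 F) ∉ 𝔭 ^ 2 := hur 𝔭 hprime
  obtain ⟨hbd, hbX⟩ := hbar hmax hg hm hdeg
  obtain ⟨t, ht⟩ := theta_ex hG
  have hfb : rd 𝔭 f = X * rd 𝔭 (h q) := by
    rw [map_eq_of_cg hcg, rd, Polynomial.map_mul, Polynomial.map_X]
  have hQ0 : (q : 𝓞 L) ≠ 0 := by exact_mod_cast hq.ne_zero
  obtain ⟨ψ₁, hψ₁⟩ := ex_psi hI hG hsq ht 𝔭 (rd 𝔭 (X : (𝓞 F)[X]))
    (by rw [hfb, rd, Polynomial.map_X]; exact Dvd.intro _ rfl)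
  obtain ⟨ψ₂, hψ₂⟩ := ex_psi hI hG hsq ht 𝔭 (rd 𝔭 (h q))
    (by rw [hfb]; exact ⟨X, X_mul⟩)
  have hirX := irrX hmax
  have hm1 := ker_max hmax hirX hψ₁
  have hm2 := ker_max hmax hirr hψ₂
  have hrdQ : ∀ a ∈ 𝔭, rd 𝔭 (C a) = 0 := by
    intro a ha
    rw [rd_C, Ideal.Quotient.eq_zero_iff_mem.2 ha, C_0]
  have q1 : ∀ a ∈ 𝔭, algebraMap (𝓞 F) (𝓞 L) a ∈ RingHom.ker ψ₁ := by
    intro a ha
    rw [RingHom.mem_ker, ← ev_C t, hψ₁, hrdQ a ha, map_zero]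
  have q2 : ∀ a ∈ 𝔭, algebraMap (𝓞 F) (𝓞 L) a ∈ RingHom.ker ψ₂ := by
    intro a ha
    rw [RingHom.mem_ker, ← ev_C t, hψ₂, hrdQ a ha, map_zero]
  have hqq : algebraMap (𝓞 F) (𝓞 L) (q : 𝓞 F) = (q : 𝓞 L) := map_natCast _ q
  have hb1 : RingHom.ker ψ₁ ≠ ⊥ := fun h0 => hQ0 (by
    have := q1 _ hmem𝔮
    rwa [h0, Ideal.mem_bot, hqq] at this)
  have hb2 : RingHom.ker ψ₂ ≠ ⊥ := fun h0 => hQ0 (by
    have := q2 _ hmem𝔮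
    rwa [h0, Ideal.mem_bot, hqq] at this)
  let 𝔓₁ : HeightOneSpectrum (𝓞 L) := ⟨RingHom.ker ψ₁, hm1.isPrime, hb1⟩
  let 𝔓₂ : HeightOneSpectrum (𝓞 L) := ⟨RingHom.ker ψ₂, hm2.isPrime, hb2⟩
  have ov1 : Ov 𝔭 𝔓₁ := q1
  have ov2 : Ov 𝔭 𝔓₂ := q2
  have ht1 : t ∈ 𝔓₁.asIdeal := by
    show t ∈ RingHom.ker ψ₁
    rw [RingHom.mem_ker, ← ev_X (F := F) t, hψ₁]
    exact AdjoinRoot.mk_eq_zero.2 dvd_rfl
  have ht2 : t ∉ 𝔓₂.asIdeal := by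
    show t ∉ RingHom.ker ψ₂
    rw [RingHom.mem_ker, ← ev_X (F := F) t, hψ₂, AdjoinRoot.mk_eq_zero, rd_X]
    exact hbX
  have hprod : ∀ I : Ideal (𝓞 L), (∀ a ∈ 𝔭, algebraMap (𝓞 F) (𝓞 L) a ∈ I) →
      𝔓₁.asIdeal * 𝔓₂.asIdeal ≤ I := by
    intro I hI'
    rw [Ideal.mul_le]
    intro x hx y hy
    obtain ⟨p, rfl⟩ := ev_surj hI hG hsq ht x
    obtain ⟨p', rfl⟩ := ev_surj hI hG hsq ht y
    change ev t p ∈ RingHom.ker ψ₁ at hx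
    change ev t p' ∈ RingHom.ker ψ₂ at hy
    rw [RingHom.mem_ker, hψ₁, AdjoinRoot.mk_eq_zero, rd_X] at hx
    rw [RingHom.mem_ker, hψ₂, AdjoinRoot.mk_eq_zero] at hy
    rw [← map_mul]
    refine mem_of_dvd (m := f) hI' ?_ ?_
    · rw [ev_f hG ht]
      exact Ideal.zero_mem _
    · rw [hfb, rd_mul]
      exact mul_dvd_mul hx hy
  have hvt : 𝔓₂.valuation L θ = 1 := by
    rw [← ht]
    exact 𝔓₂.valuation_eq_one_iff_notMem.mpr ht2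
  have hqL : (q : L) = algebraMap (𝓞 L) L (q : 𝓞 L) := by rw [map_natCast]
  refine ⟨𝔓₁, 𝔓₂, ov1, ov2, ?_, hvt, ?_, ?_, ?_⟩
  · rw [← ht]
    exact (𝔓₁.valuation_lt_one_iff_mem _).mpr ht1
  · rw [hqL]
    refine val_one hQ0 (by rw [← hqq]; exact ov1 _ hmem𝔮) fun hmem => ?_
    rw [← hqq] at hmem
    have h1 : 𝔓₁.asIdeal * 𝔓₂.asIdeal ≤ 𝔓₁.asIdeal ^ 2 :=
      hprod _ (sq_mem hmax hmem𝔮 hq2 ov1 hmem)
    rw [← Ideal.dvd_iff_le, sq] at h1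
    have h2 : 𝔓₁.asIdeal ∣ 𝔓₂.asIdeal := (mul_dvd_mul_iff_left (a := 𝔓₁.asIdeal) hb1).mp h1
    rw [Ideal.dvd_iff_le] at h2
    have h3 := hm2.eq_of_le 𝔓₁.isPrime.ne_top h2
    apply ht2
    show t ∈ RingHom.ker ψ₂
    rw [h3]
    exact ht1
  · rw [hqL]
    refine val_one hQ0 (by rw [← hqq]; exact ov2 _ hmem𝔮) fun hmem => ?_
    rw [← hqq] at hmem
    have h1 : 𝔓₁.asIdeal * 𝔓₂.asIdeal ≤ 𝔓₂.asIdeal ^ 2 :=
      hprod _ (sq_mem hmax hmem𝔮 hq2 ov2 hmem)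
    rw [← Ideal.dvd_iff_le, sq] at h1
    have h2 : 𝔓₂.asIdeal ∣ 𝔓₁.asIdeal := (mul_dvd_mul_iff_right (a := 𝔓₂.asIdeal) hb2).mp h1
    rw [Ideal.dvd_iff_le] at h2
    exact ht2 (h2 ht1)
  · intro 𝔓 hov
    rcases mem_or hG ht hcg hov with hmm | hmm
    · left
      apply HeightOneSpectrum.ext
      exact eq_ker hI hG hsq ht hmax hirX hψ₁ hov (by rw [ev_X]; exact hmm)
    · right
      apply HeightOneSpectrum.ext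
      exact eq_ker hI hG hsq ht hmax hirr hψ₂ hov hmm

/-- **CSQ.** -/
theorem csq (hI : S_INT) : S_CSQ := by
  intro g W F L _ _ _ _ _ f θ S 𝔮 h P hg hG hsq hS q hqS hcg 𝔓 hov hv
  obtain ⟨hq, -, -, h8, -, hprime, hmem𝔮, hm, hdeg, hirr, -⟩ := hS q hqS
  obtain ⟨𝔭, h𝔭⟩ : ∃ 𝔭 : Ideal (𝓞 F), 𝔭 = 𝔮 q := ⟨_, rfl⟩
  rw [← h𝔭] at hprime hmem𝔮 hirr hcg hov ⊢
  have hq0 : (q : 𝓞 F) ≠ 0 := by exact_mod_cast hq.ne_zero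
  have hne : 𝔭 ≠ ⊥ := fun h0 => hq0 (by rwa [h0, Ideal.mem_bot] at hmem𝔮)
  have hmax : 𝔭.IsMaximal := hprime.isMaximal hne
  obtain ⟨hbd, hbX⟩ := hbar hmax hg hm hdeg
  obtain ⟨t, ht⟩ := theta_ex hG
  have hfb : rd 𝔭 f = X * rd 𝔭 (h q) := by
    rw [map_eq_of_cg hcg, rd, Polynomial.map_mul, Polynomial.map_X]
  obtain ⟨ψ, hψ⟩ := ex_psi hI hG hsq ht 𝔭 (rd 𝔭 (h q))
    (by rw [hfb]; exact ⟨X, X_mul⟩)
  have htn : t ∉ 𝔓.asIdeal := by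
    rw [← ht] at hv
    exact 𝔓.valuation_eq_one_iff_notMem.mp hv
  have hker : 𝔓.asIdeal = RingHom.ker ψ :=
    eq_ker hI hG hsq ht hmax hirr hψ hov ((mem_or hG ht hcg hov).resolve_left htn)
  obtain ⟨c1, c4⟩ := card_adj hmax hne hirr
  have f3 : Finite (𝓞 F ⧸ 𝔭) := fin_quot hne
  have hκ0 : ((q : ℕ) : 𝓞 F ⧸ 𝔭) = 0 := by
    rw [← map_natCast (Ideal.Quotient.mk 𝔭)]
    exact Ideal.Quotient.eq_zero_iff_mem.2 hmem𝔮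
  let iκ : Field (𝓞 F ⧸ 𝔭) := Ideal.Quotient.field _
  obtain ⟨k1, k2, e, ke⟩ := kappa_facts (κ := 𝓞 F ⧸ 𝔭) hq h8 hκ0
  obtain ⟨a1, a2⟩ := adj_facts hg k1 k2 hirr (hm.map _) hbd
  have hX0 : AdjoinRoot.mk (rd 𝔭 (h q)) X ≠ 0 := by
    rw [Ne, AdjoinRoot.mk_eq_zero]
    exact hbX
  have hder : AdjoinRoot.mk (rd 𝔭 (h q)) (rd 𝔭 (derivative f)) =
      AdjoinRoot.mk (rd 𝔭 (h q)) X * AdjoinRoot.mk (rd 𝔭 (h q)) (derivative (rd 𝔭 (h q))) := by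
    have e1 : rd 𝔭 (derivative f) = derivative (rd 𝔭 f) := (derivative_map _ _).symm
    rw [e1, hfb, derivative_mul, derivative_X, one_mul, map_add, map_mul,
      AdjoinRoot.mk_self, zero_add]
  have hdn : ev t (derivative f) ∉ 𝔓.asIdeal := by
    rw [hker, RingHom.mem_ker, hψ, hder]
    exact fun h0 => hX0 (a1 _ h0)
  have hdL : aeval θ (derivative (fF f)) = algebraMap (𝓞 L) L (ev t (derivative f)) := by
    rw [ev_L ht, fF, fF, derivative_map]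
  have hd1 : 𝔓.valuation L (aeval θ (derivative (fF f))) = 1 := by
    rw [hdL]
    exact 𝔓.valuation_eq_one_iff_notMem.mpr hdn
  refine ⟨?_, ?_, hd1, ?_⟩
  · intro c hc
    have hc0 : Ideal.Quotient.mk 𝔭 c ≠ 0 := fun h0 => hc (Ideal.Quotient.eq_zero_iff_mem.1 h0)
    have i2 : Fact (Irreducible (rd 𝔭 (h q))) := ⟨hirr⟩
    have hsq' : IsSquare (AdjoinRoot.of (rd 𝔭 (h q)) (Ideal.Quotient.mk 𝔭 c)) :=
      sq_even (AdjoinRoot.of (rd 𝔭 (h q))) (g := g) (by rw [c1, hbd]) _ hc0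
    obtain ⟨a, ha⟩ := hsq'
    obtain ⟨z, rfl⟩ := psi_surj hψ a
    have h1 : ψ (algebraMap (𝓞 F) (𝓞 L) c - z ^ 2) = 0 := by
      rw [map_sub, map_pow, ← ev_C t c, hψ, rd_C, AdjoinRoot.mk_C, ha]
      ring
    have h2 : algebraMap (𝓞 F) (𝓞 L) c - z ^ 2 ∈ 𝔓.asIdeal := by
      rw [hker]; exact h1
    have h3 : algebraMap (𝓞 F) (𝓞 L) c ∉ 𝔓.asIdeal := fun h4 => hc ((ov_iff hmax hov c).1 h4)
    refine ⟨algebraMap (𝓞 L) L z, ?_⟩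
    rw [← algMap_coe, ← map_pow, ← map_sub, 𝔓.valuation_eq_one_iff_notMem.mpr h3]
    exact (𝔓.valuation_lt_one_iff_mem _).mpr h2
  · refine ⟨e * g, ?_⟩
    rw [hker, Nat.card_congr (RingHom.quotientKerEquivOfSurjective (psi_surj hψ)).toEquiv, c1, hbd,
      ke, ← pow_mul]
    congr 1
    ring
  · rintro ⟨s, hs⟩
    have hx1 : 𝔓.valuation L (θ * aeval θ (derivative (fF f))) = 1 := by
      rw [map_mul, hv, hd1, one_mul]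
    rw [hx1] at hs
    have hxs : s ^ 2 + (θ * aeval θ (derivative (fF f)) - s ^ 2) =
        θ * aeval θ (derivative (fF f)) := by ring
    have hs1 : 𝔓.valuation L s ≤ 1 := by
      by_contra hn
      push Not at hn
      have h1 : 1 < 𝔓.valuation L (s ^ 2) := by
        rw [map_pow]
        exact one_lt_pow₀ hn two_ne_zero
      have h2 := Valuation.map_add_eq_of_lt_left (𝔓.valuation L) (hs.trans h1)
      rw [hxs, hx1] at h2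
      exact h1.ne h2
    obtain ⟨z, hz⟩ := 𝔓.exists_valuation_sub_lt_of_integer hs1 1
    rw [Units.val_one] at hz
    have hz1 : 𝔓.valuation L (algebraMap (𝓞 L) L z) ≤ 1 := 𝔓.valuation_le_one z
    have h3 : 𝔓.valuation L (θ * aeval θ (derivative (fF f)) - algebraMap (𝓞 L) L z ^ 2) < 1 := by
      have e1 : θ * aeval θ (derivative (fF f)) - algebraMap (𝓞 L) L z ^ 2 =
          (θ * aeval θ (derivative (fF f)) - s ^ 2) -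
            (algebraMap (𝓞 L) L z - s) * (algebraMap (𝓞 L) L z + s) := by ring
      rw [e1]
      refine Valuation.map_sub_lt _ hs ?_
      rw [map_mul]
      have h4 : 𝔓.valuation L (algebraMap (𝓞 L) L z + s) ≤ 1 :=
        Valuation.map_add_le _ hz1 hs1
      calc _ ≤ 𝔓.valuation L (algebraMap (𝓞 L) L z - s) * 1 := mul_le_mul_right h4 _
        _ < 1 := by rw [mul_one]; exact hz
    have h5 : t * ev t (derivative f) - z ^ 2 ∈ 𝔓.asIdeal := by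
      have h4 : 𝔓.valuation L (algebraMap (𝓞 L) L (t * ev t (derivative f) - z ^ 2)) < 1 := by
        rw [map_sub, map_mul, map_pow, ht, ← hdL]
        exact h3
      exact (𝔓.valuation_lt_one_iff_mem _).mp h4
    rw [hker, RingHom.mem_ker, map_sub, map_mul, map_pow, hψ, hder, sub_eq_zero] at h5
    have h6 : ψ t = AdjoinRoot.mk (rd 𝔭 (h q)) X := by
      rw [← ev_X (F := F) t, hψ, rd_X]
    rw [h6, ← mul_assoc, ← sq] at h5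
    exact hX0 (a2 _ _ h5)

end Pool.Agent.N73.PF
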