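import Mathlib

/-!
# The value of the derivative at a root over a finite field (project PF of helper783)

By helper73. If `h` is irreducible of even degree over a finite field of odd characteristic in which
`-1` is a square, and `h(θ) = 0`, then `h'(θ)` is not a square: the norm of `h'(θ)` is, up to a square, the
square of the Vandermonde determinant of the conjugates of `θ`, and the Frobenius, acting as a cycle of
even length, changes the sign of this determinant.
-/

set_option autoImplicit false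

open Polynomial Finset

namespace Pool.Agent.N73.PF

section

variable {κ L : Type} [Field κ] [Fintype κ] [Field L] [Finite L] [Algebra κ L]

theorem shift {m : ℕ} (hr : Module.finrank κ L = m + 1) (x : L) (k : Fin (m + 1)) :
    FiniteField.frobeniusAlgHom κ L ((FiniteField.frobeniusAlgHom κ L ^ (k : ℕ)) x) =
      (FiniteField.frobeniusAlgHom κ L ^ ((finRotate (m + 1) k : Fin (m + 1)) : ℕ)) x := by
  rw [coe_finRotate]
  split_ifs with h
  · rw [h, Fin.val_last, pow_zero, AlgHom.one_apply]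
    have h1 : FiniteField.frobeniusAlgHom κ L ^ (m + 1) = 1 := by
      rw [← hr, ← FiniteField.orderOf_frobeniusAlgHom κ L]
      exact pow_orderOf_eq_one _
    have h2 := DFunLike.congr_fun h1 x
    rw [pow_succ'] at h2
    exact h2
  · rw [pow_succ']
    rfl

theorem nonsq {m : ℕ} (hr : Module.finrank κ L = m + 1) (hm : Odd m) (h2 : (2 : κ) ≠ 0)
    (h1 : IsSquare (-1 : κ)) {h : κ[X]} (hmon : h.Monic) (hdeg : h.natDegree = m + 1) {θ : L}
    (h0 : aeval θ h = 0) (gen : ∀ ψ ψ' : L →ₐ[κ] L, ψ θ = ψ' θ → ψ = ψ') :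
    aeval θ (derivative h) ≠ 0 ∧ ¬ IsSquare (aeval θ (derivative h)) := by
  classical
  obtain ⟨φ, hφ⟩ : ∃ φ : L →ₐ[κ] L, φ = FiniteField.frobeniusAlgHom κ L := ⟨_, rfl⟩
  have hsh := shift hr
  have hord : orderOf φ = m + 1 := by rw [hφ, FiniteField.orderOf_frobeniusAlgHom κ L, hr]
  rw [← hφ] at hsh
  obtain ⟨v, hv⟩ : ∃ v : Fin (m + 1) → L, v = fun k : Fin (m + 1) => (φ ^ (k : ℕ)) θ :=
    ⟨_, rfl⟩
  have hvi : Function.Injective v := by
    intro i j hij
    rw [hv] at hij
    have h3 := gen _ _ hij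
    have h4 := pow_injOn_Iio_orderOf (x := φ) (by rw [hord]; exact i.2) (by rw [hord]; exact j.2) h3
    exact Fin.ext h4
  have hv0 : v 0 = θ := by rw [hv]; simp
  have hroot : ∀ k, aeval (v k) h = 0 := by
    intro k
    rw [hv]
    simp only
    rw [aeval_algHom_apply, h0, map_zero]
  have hprod : h.map (algebraMap κ L) = ∏ i, (X - C (v i)) := by
    have hd : (∏ i, (X - C (v i))) ∣ h.map (algebraMap κ L) := by
      refine Finset.prod_dvd_of_coprime (fun i _ j _ hij => pairwise_coprime_X_sub_C hvi hij)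
        fun i _ => ?_
      rw [dvd_iff_isRoot, IsRoot.def, eval_map_algebraMap]
      exact hroot i
    have hmp : (∏ i, (X - C (v i))).Monic := monic_prod_of_monic _ _ fun i _ => monic_X_sub_C _
    refine eq_of_monic_of_dvd_of_natDegree_le hmp (hmon.map _) hd ?_
    rw [hmon.natDegree_map, hdeg, natDegree_prod_of_monic _ _ fun i _ => monic_X_sub_C _]
    simp
  have hder : ∀ k, aeval (v k) (derivative h) = ∏ j ∈ univ.erase k, (v k - v j) := by
    intro k
    rw [← eval_map_algebraMap, ← derivative_map, hprod]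
    have h3 := Lagrange.eval_nodal_derivative_eval_node_eq (v := v) (mem_univ k)
    rw [Lagrange.eval_nodal] at h3
    exact h3
  have hne : aeval θ (derivative h) ≠ 0 := by
    rw [← hv0, hder, prod_ne_zero_iff]
    intro j hj
    rw [mem_erase] at hj
    exact sub_ne_zero.2 fun h => hj.1 (hvi h).symm
  refine ⟨hne, ?_⟩
  rintro ⟨z, hz⟩
  obtain ⟨i₀, hi₀⟩ := h1
  obtain ⟨ι, hι⟩ : ∃ ι : L, ι = algebraMap κ L i₀ := ⟨_, rfl⟩
  have hιι : ι * ι = -1 := by rw [hι, ← map_mul, ← hi₀, map_neg, map_one]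
  have hι0 : ι ≠ 0 := by
    intro h3
    rw [h3, mul_zero] at hιι
    exact one_ne_zero (neg_eq_zero.1 hιι.symm)
  have hφι : φ ι = ι := by rw [hι, AlgHom.commutes]
  obtain ⟨D, hD⟩ : ∃ D : L, D = (Matrix.vandermonde v).det := ⟨_, rfl⟩
  have hD' : D = ∏ i, ∏ j ∈ Ioi i, (v j - v i) := by rw [hD, Matrix.det_vandermonde]
  have hD0 : D ≠ 0 := by rw [hD]; exact Matrix.det_vandermonde_ne_zero_iff.2 hvi
  have hφD : φ D = -D := by
    have e1 : φ D = (Matrix.vandermonde (v ∘ finRotate (m + 1))).det := by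
      rw [hD, AlgHom.map_det]
      congr 1
      ext i j
      rw [AlgHom.mapMatrix_apply, Matrix.map_apply, Matrix.vandermonde_apply,
        Matrix.vandermonde_apply, map_pow, Function.comp_apply, hv]
      simp only
      rw [hsh]
    have e2 : Matrix.vandermonde (v ∘ finRotate (m + 1)) =
        (Matrix.vandermonde v).submatrix (finRotate (m + 1)) id := by
      ext i j
      rfl
    rw [e1, e2, Matrix.det_permute, sign_finRotate, Nat.add_sub_cancel, hm.neg_one_pow, ← hD]
    simp
  obtain ⟨c, hc⟩ : ∃ c : L, c = ∏ i : Fin (m + 1), ∏ _j ∈ Ioi i, ι := ⟨_, rfl⟩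
  have hc0 : c ≠ 0 := by
    rw [hc]
    exact prod_ne_zero_iff.2 fun i _ => prod_ne_zero_iff.2 fun j _ => hι0
  have hφc : φ c = c := by
    rw [hc, map_prod]
    refine prod_congr rfl fun i _ => ?_
    rw [map_prod]
    exact prod_congr rfl fun j _ => hφι
  have hN : ∏ k, aeval (v k) (derivative h) = (c * D) ^ 2 := by
    have e1 : ∏ k, aeval (v k) (derivative h) = ∏ k, ∏ j ∈ {k}ᶜ, (v k - v j) := by
      refine prod_congr rfl fun k _ => ?_
      rw [hder, Finset.compl_singleton]
    rw [e1, ← prod_prod_Ioi_mul_eq_prod_prod_off_diag (fun j k => v k - v j), hc, hD',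
      ← prod_mul_distrib, ← prod_pow]
    refine prod_congr rfl fun i _ => ?_
    rw [← prod_mul_distrib, ← prod_pow]
    refine prod_congr rfl fun j _ => ?_
    linear_combination (-(v j - v i) ^ 2) * hιι
  obtain ⟨w, hw⟩ : ∃ w : L, w = ∏ k : Fin (m + 1), (φ ^ (k : ℕ)) z := ⟨_, rfl⟩
  have hφw : φ w = w := by
    rw [hw, map_prod]
    simp only [hsh]
    exact Equiv.prod_comp (finRotate (m + 1)) fun k : Fin (m + 1) => (φ ^ (k : ℕ)) z
  have hw2 : w ^ 2 = (c * D) ^ 2 := by
    rw [← hN, hw, ← prod_pow]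
    refine prod_congr rfl fun k _ => ?_
    have e1 : v k = (φ ^ (k : ℕ)) θ := by rw [hv]
    rw [e1, aeval_algHom_apply, hz, map_mul]
    ring
  have h2L : (2 : L) ≠ 0 := by
    have : (2 : L) = algebraMap κ L 2 := by rw [map_ofNat]
    rw [this]
    exact (_root_.map_ne_zero _).2 h2
  have hcD : c * D ≠ 0 := mul_ne_zero hc0 hD0
  have hφcD : φ (c * D) = -(c * D) := by rw [map_mul, hφc, hφD]; ring
  rcases sq_eq_sq_iff_eq_or_eq_neg.1 hw2 with h3 | h3
  · rw [h3, hφcD] at hφw
    have : 2 * (c * D) = 0 := by linear_combination -hφw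
    exact (mul_ne_zero h2L hcD) this
  · rw [h3, map_neg, hφcD, neg_neg] at hφw
    have : 2 * (c * D) = 0 := by linear_combination hφw
    exact (mul_ne_zero h2L hcD) this

end

end Pool.Agent.N73.PF
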